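import Mathlib

set_option autoImplicit false

namespace Pool.Agent.W779.IM

open Finset

/-- the sum of the Jacobi symbols over the divisors of a squarefree number -/
theorem jac_expand (a : ℤ) (e : ℕ) (he : Squarefree e) :
    ∏ p ∈ e.primeFactors, (1 + (jacobiSym a p : ℝ)) = ∑ f ∈ e.divisors, (jacobiSym a f : ℝ) := by
  classical
  let F : ArithmeticFunction ℝ := ⟨fun f => if f = 0 then 0 else (jacobiSym a f : ℝ), by simp⟩
  have hF : F.IsMultiplicative := by
    rw [ArithmeticFunction.IsMultiplicative.iff_ne_zero]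
    refine ⟨by simp [F], ?_⟩
    intro m n hm hn _
    simp only [F, ArithmeticFunction.coe_mk, mul_eq_zero, hm, hn, or_self, if_false]
    have : NeZero m := ⟨hm⟩
    have : NeZero n := ⟨hn⟩
    rw [jacobiSym.mul_right]
    push_cast
    ring
  have h := hF.prodPrimeFactors_one_add_of_squarefree he
  have h1 : ∏ p ∈ e.primeFactors, (1 + (jacobiSym a p : ℝ)) = ∏ p ∈ e.primeFactors, (1 + F p) := by
    refine prod_congr rfl fun p hp => ?_
    have : p ≠ 0 := (Nat.prime_of_mem_primeFactors hp).ne_zero
    simp [F, this]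
  rw [h1, h]
  refine sum_congr rfl fun d hd => ?_
  have : d ≠ 0 := by
    rintro rfl
    have := Nat.dvd_of_mem_divisors hd
    rw [zero_dvd_iff] at this
    exact he.ne_zero this
  simp [F, this]

theorem jac_le (a : ℤ) (f : ℕ) : |(jacobiSym a f : ℝ)| ≤ 1 := by
  rcases jacobiSym.trichotomy a f with h | h | h <;> simp [h]

theorem jac_bd (a : ℤ) (f : ℕ) : (-1 : ℝ) ≤ jacobiSym a f ∧ (jacobiSym a f : ℝ) ≤ 1 := by
  rcases jacobiSym.trichotomy a f with h | h | h <;> simp [h]

/-- the product is at most `2 ^ ω` times the indicator, up to the numbers that are not coprime -/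
theorem prod_le (a : ℤ) (e : ℕ) :
    ∏ p ∈ e.primeFactors, (1 + (jacobiSym a p : ℝ)) ≤
      2 ^ e.primeFactors.card * ((if ∀ p ∈ e.primeFactors, jacobiSym a p = 1 then 1 else 0) +
        (if ∃ p ∈ e.primeFactors, jacobiSym a p = 0 then 1 else 0)) := by
  classical
  have hle : ∏ p ∈ e.primeFactors, (1 + (jacobiSym a p : ℝ)) ≤ 2 ^ e.primeFactors.card := by
    rw [← prod_const]
    refine prod_le_prod (fun p _ => ?_) (fun p _ => ?_)
    · have := (jac_bd a p).1; linarith
    · have := (jac_bd a p).2; linarith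
  by_cases h1 : ∀ p ∈ e.primeFactors, jacobiSym a p = 1
  · rw [if_pos h1]
    have : (0 : ℝ) ≤ (if ∃ p ∈ e.primeFactors, jacobiSym a p = 0 then 1 else 0) := by
      split_ifs <;> norm_num
    have h2 : (0 : ℝ) < 2 ^ e.primeFactors.card := by positivity
    nlinarith
  · rw [if_neg h1]
    by_cases h0 : ∃ p ∈ e.primeFactors, jacobiSym a p = 0
    · rw [if_pos h0]
      simpa using hle
    · rw [if_neg h0]
      push Not at h1 h0
      obtain ⟨p, hp, hp1⟩ := h1
      have hp0 := h0 p hp
      have : jacobiSym a p = -1 := by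
        rcases jacobiSym.trichotomy a p with h | h | h
        · exact absurd h hp0
        · exact absurd h hp1
        · exact h
      rw [prod_eq_zero hp (by simp [this])]
      simp

end Pool.Agent.W779.IM
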