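import Mathlib
import Pool.Agent.W779.IM.Exp

set_option autoImplicit false

namespace Pool.Agent.W779.IM

open Finset

/-- the number of the multiples of the primes of `e` -/
theorem card_noncop (T K : ℕ) (w : ℝ) (hw : 0 < w) (e : ℕ) (hK : e.primeFactors.card ≤ K)
    (hp : ∀ p ∈ e.primeFactors, w < p) :
    (((Icc 1 T).filter (fun l : ℕ => ∃ p ∈ e.primeFactors, p ∣ l)).card : ℝ) ≤ K * (T / w) := by
  classical
  have h1 : (Icc 1 T).filter (fun l : ℕ => ∃ p ∈ e.primeFactors, p ∣ l) ⊆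
      e.primeFactors.biUnion (fun p => (Icc 1 T).filter (fun l => p ∣ l)) := by
    intro l hl
    rw [mem_filter] at hl
    obtain ⟨hl, p, hp, hpl⟩ := hl
    rw [mem_biUnion]
    exact ⟨p, hp, mem_filter.2 ⟨hl, hpl⟩⟩
  have h2 : ((Icc 1 T).filter (fun l : ℕ => ∃ p ∈ e.primeFactors, p ∣ l)).card ≤
      ∑ p ∈ e.primeFactors, ((Icc 1 T).filter (fun l => p ∣ l)).card :=
    (card_le_card h1).trans card_biUnion_le
  have h3 : ∀ p ∈ e.primeFactors, ((((Icc 1 T).filter (fun l => p ∣ l)).card : ℕ) : ℝ) ≤ T / w := by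
    intro p hpp
    have h4 : ((Icc 1 T).filter (fun l => p ∣ l)).card = T / p := by
      have := Nat.Ioc_filter_dvd_card_eq_div T p
      rw [← this]
      congr 1
    rw [h4]
    have hpos : (0 : ℝ) < p := hw.trans (hp p hpp)
    calc ((T / p : ℕ) : ℝ) ≤ T / p := Nat.cast_div_le
      _ ≤ T / w := div_le_div_of_nonneg_left (by positivity) hw (hp p hpp).le
  calc (((Icc 1 T).filter (fun l : ℕ => ∃ p ∈ e.primeFactors, p ∣ l)).card : ℝ)
      ≤ ∑ p ∈ e.primeFactors, ((((Icc 1 T).filter (fun l => p ∣ l)).card : ℕ) : ℝ) := by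
        exact_mod_cast h2
    _ ≤ ∑ p ∈ e.primeFactors, (T / w : ℝ) := sum_le_sum h3
    _ = e.primeFactors.card * (T / w) := by rw [sum_const, nsmul_eq_mul]
    _ ≤ K * (T / w) := by
        have : (e.primeFactors.card : ℝ) ≤ K := by exact_mod_cast hK
        have h5 : (0 : ℝ) ≤ T / w := by positivity
        exact mul_le_mul_of_nonneg_right this h5

/-- the lower bound for the sum over the numbers with all symbols 1 -/
theorem main_lower (c : ℕ → ℝ) (h0 : ∀ l, 0 ≤ c l) (h1 : ∀ l, c l ≤ 1) (T e : ℕ)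
    (he : Squarefree e) (h3 : ∀ p ∈ e.primeFactors, p ≠ 3) :
    (∑ l ∈ Icc 1 T, c l) - ∑ f ∈ e.divisors.erase 1, |∑ l ∈ Icc 1 T, c l * (jacobiSym l f : ℝ)| ≤
      2 ^ e.primeFactors.card *
        ((∑ l ∈ (Icc 1 T).filter (fun l : ℕ => ∀ p ∈ e.primeFactors, jacobiSym (3 * l) p = 1), c l)
        + (((Icc 1 T).filter (fun l : ℕ => ∃ p ∈ e.primeFactors, p ∣ l)).card : ℝ)) := by
  classical
  have hA : ∑ l ∈ Icc 1 T, c l * ∏ p ∈ e.primeFactors, (1 + (jacobiSym (3 * (l : ℤ)) p : ℝ)) =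
      ∑ f ∈ e.divisors, (jacobiSym 3 f : ℝ) * ∑ l ∈ Icc 1 T, c l * (jacobiSym l f : ℝ) := by
    simp_rw [jac_expand _ e he, mul_sum]
    rw [sum_comm]
    refine sum_congr rfl fun f _ => sum_congr rfl fun l _ => ?_
    rw [jacobiSym.mul_left]
    push_cast
    ring
  have hB : (∑ l ∈ Icc 1 T, c l) -
      ∑ f ∈ e.divisors.erase 1, |∑ l ∈ Icc 1 T, c l * (jacobiSym l f : ℝ)| ≤
      ∑ f ∈ e.divisors, (jacobiSym 3 f : ℝ) * ∑ l ∈ Icc 1 T, c l * (jacobiSym l f : ℝ) := by
    have h1m : 1 ∈ e.divisors := Nat.one_mem_divisors.2 he.ne_zero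
    rw [← add_sum_erase _ _ h1m]
    have hone : (jacobiSym 3 1 : ℝ) * ∑ l ∈ Icc 1 T, c l * (jacobiSym l 1 : ℝ) =
        ∑ l ∈ Icc 1 T, c l := by simp
    rw [hone]
    have : -∑ f ∈ e.divisors.erase 1, |∑ l ∈ Icc 1 T, c l * (jacobiSym l f : ℝ)| ≤
        ∑ f ∈ e.divisors.erase 1, (jacobiSym 3 f : ℝ) * ∑ l ∈ Icc 1 T, c l * (jacobiSym l f : ℝ) := by
      rw [← sum_neg_distrib]
      refine sum_le_sum fun f _ => ?_
      have h := neg_abs_le ((jacobiSym 3 f : ℝ) * ∑ l ∈ Icc 1 T, c l * (jacobiSym l f : ℝ))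
      rw [abs_mul] at h
      have h' := jac_le 3 f
      have h'' := abs_nonneg (∑ l ∈ Icc 1 T, c l * (jacobiSym l f : ℝ))
      nlinarith
    linarith
  refine hB.trans ?_
  rw [← hA]
  have hC : ∀ l ∈ Icc 1 T, c l * ∏ p ∈ e.primeFactors, (1 + (jacobiSym (3 * (l : ℤ)) p : ℝ)) ≤
      2 ^ e.primeFactors.card * ((if ∀ p ∈ e.primeFactors, jacobiSym (3 * (l : ℤ)) p = 1 then c l
        else 0) + (if ∃ p ∈ e.primeFactors, p ∣ l then 1 else 0)) := by
    intro l hl
    have h := mul_le_mul_of_nonneg_left (prod_le (3 * (l : ℤ)) e) (h0 l)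
    refine h.trans ?_
    rw [mul_left_comm]
    refine mul_le_mul_of_nonneg_left ?_ (by positivity)
    rw [mul_add]
    refine add_le_add ?_ ?_
    · split_ifs <;> simp
    · by_cases hx : ∃ p ∈ e.primeFactors, jacobiSym (3 * (l : ℤ)) p = 0
      · have hy : ∃ p ∈ e.primeFactors, p ∣ l := by
          obtain ⟨p, hp, hpx⟩ := hx
          refine ⟨p, hp, ?_⟩
          have hpr := Nat.prime_of_mem_primeFactors hp
          have hne : NeZero p := ⟨hpr.ne_zero⟩
          rw [jacobiSym.eq_zero_iff_not_coprime, Int.gcd_eq_natAbs] at hpx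
          have hg : ¬ Nat.Coprime (3 * l) p := by
            simpa [Int.natAbs_mul] using hpx
          rw [Nat.coprime_comm, Nat.Prime.coprime_iff_not_dvd hpr, not_not, hpr.dvd_mul] at hg
          rcases hg with hg | hg
          · exact absurd ((Nat.prime_dvd_prime_iff_eq hpr Nat.prime_three).1 hg) (h3 p hp)
          · exact hg
        rw [if_pos hx, if_pos hy]
        simpa using h1 l
      · rw [if_neg hx]
        simp only [mul_zero]
        split_ifs <;> norm_num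
  refine (sum_le_sum hC).trans ?_
  rw [← mul_sum, sum_add_distrib]
  refine mul_le_mul_of_nonneg_left ?_ (by positivity)
  refine add_le_add ?_ ?_
  · rw [sum_filter]
  · rw [card_filter]
    push_cast
    exact le_refl _

end Pool.Agent.W779.IM
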