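import Mathlib
import Pool.Agent.W307.IM.Stm
import Pool.Agent.W779.IM.Exp2

set_option autoImplicit false

namespace Pool.Agent.W779.IM

open Finset Filter Pool.Agent.W262.RK Pool.Agent.W307.IM

theorem cz_nonneg (z : ℝ) (hz : 0 < z) (w l : ℕ) : 0 ≤ cz z w l := by
  unfold cz
  split_ifs
  · positivity
  · exact le_refl _

theorem cz_le_one (z : ℝ) (hz : 0 < z) (hz1 : z < 1) (w l : ℕ) : cz z w l ≤ 1 := by
  unfold cz
  split_ifs
  · exact pow_le_one₀ hz.le hz1.le
  · norm_num

theorem cz_zero (z : ℝ) (w : ℕ) : cz z w 0 = 0 := by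
  unfold cz
  rw [if_neg]
  rintro ⟨h, _⟩
  omega

theorem sum_range_Icc (g : ℕ → ℝ) (h : g 0 = 0) (T : ℕ) :
    ∑ l ∈ range (T + 1), g l = ∑ l ∈ Icc 1 T, g l := by
  rw [Finset.range_eq_Ico, Finset.sum_eq_sum_Ico_succ_bot (by omega), h, zero_add]
  rfl

theorem GG_eq (z : ℝ) (w T f : ℕ) :
    GG z w T f = ∑ l ∈ Icc 1 T, cz z w l * (jacobiSym l f : ℝ) := by
  unfold GG
  rw [sum_range_Icc _ (by rw [cz_zero, zero_mul])]
  rfl

theorem AE_eq (z : ℝ) (w T e : ℕ) (he : e ≠ 0) :
    AE z w T e = ∑ l ∈ (Icc 1 T).filter (fun l : ℕ => ∀ p ∈ e.primeFactors,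
      jacobiSym (3 * l) p = 1), cz z w l := by
  classical
  unfold AE
  rw [sum_filter, sum_filter, sum_range_Icc _ (by simp [cz_zero])]
  refine sum_congr rfl fun l _ => ?_
  have : (∀ p : ℕ, p.Prime → p ∣ e → jacobiSym (3 * (l : ℤ)) p = 1) ↔
      ∀ p ∈ e.primeFactors, jacobiSym (3 * (l : ℤ)) p = 1 := by
    constructor
    · intro h p hp
      exact h p (Nat.prime_of_mem_primeFactors hp) (Nat.dvd_of_mem_primeFactors hp)
    · intro h p hp hpe
      exact h p (Nat.mem_primeFactors.2 ⟨hp, hpe, he⟩)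
  by_cases hx : ∀ p ∈ e.primeFactors, jacobiSym (3 * (l : ℤ)) p = 1
  · rw [if_pos (this.2 hx), if_pos hx]
  · rw [if_neg (fun h => hx (this.1 h)), if_neg hx]

theorem PP_sqf (z y : ℕ) : Squarefree (PP z y) := by
  unfold PP
  have : ∀ s : Finset ℕ, (∀ p ∈ s, p.Prime) → Squarefree (∏ p ∈ s, p) := by
    intro s
    classical
    induction s using Finset.induction_on with
    | empty => intro _; simp
    | insert a s ha ih =>
      intro h
      rw [prod_insert ha, Nat.squarefree_mul]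
      · exact ⟨(h a (mem_insert_self _ _)).prime.squarefree, ih fun p hp => h p (mem_insert_of_mem hp)⟩
      · refine Nat.Coprime.prod_right fun q hq => ?_
        rw [Nat.coprime_primes (h a (mem_insert_self _ _)) (h q (mem_insert_of_mem hq))]
        rintro rfl
        exact ha hq
  exact this _ fun p hp => (mem_filter.1 hp).2

theorem PP_prime (z y p : ℕ) (hp : p.Prime) (h : p ∣ PP z y) : z < p := by
  unfold PP at h
  rw [hp.prime.dvd_finsetProd_iff] at h
  obtain ⟨q, hq, hpq⟩ := h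
  have hq' := mem_filter.1 hq
  have : p = q := (Nat.prime_dvd_prime_iff_eq hp hq'.2).1 hpq
  rw [this]
  exact (mem_Ioc.1 hq'.1).1

theorem divisors_card (e : ℕ) (he : Squarefree e) : e.divisors.card = 2 ^ e.primeFactors.card := by
  have h := jac_expand 1 e he
  simp only [jacobiSym.one_left, Int.cast_one, prod_const, sum_const, nsmul_eq_mul, mul_one] at h
  have h2 : ((2 ^ e.primeFactors.card : ℕ) : ℝ) = (e.divisors.card : ℝ) := by
    push_cast
    rw [← h]
    norm_num
  exact_mod_cast h2.symm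

theorem aelo_of : ZLOW → AELO := by
  intro hZ z K0 hz0 hz1
  refine ⟨K0 + 3, fun B hB => ⟨K0 + 4, fun A hA => ?_⟩⟩
  obtain ⟨C, T1, hT1⟩ := hZ z A hz0 hz1
  have hL : Tendsto (fun T : ℕ => Real.log T) atTop atTop :=
    Real.tendsto_log_atTop.comp tendsto_natCast_atTop_atTop
  have hev1 := (isLittleO_log_rpow_rpow_atTop C (s := 1) one_pos).bound one_pos
  have hev := (hL.eventually (hev1.and (eventually_ge_atTop (8 * ((K0 : ℝ) + 1))))).and
    (eventually_ge_atTop T1)
  obtain ⟨T0, hT0⟩ := eventually_atTop.1 hev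
  refine ⟨T0, fun T hT e he hbad => ?_⟩
  obtain ⟨⟨h1, h2⟩, h3⟩ := hT0 T hT
  have hlow := hT1 T h3
  set L := Real.log T with hLdef
  have hL8 : 8 ≤ L := by
    have : (0 : ℝ) ≤ K0 := by positivity
    linarith
  have hL0 : 0 < L := by linarith
  have hL1 : 1 ≤ L := by linarith
  have hTpos : (0 : ℝ) < T := by
    by_contra hcon
    have : (T : ℝ) = 0 := le_antisymm (not_lt.1 hcon) (by positivity)
    rw [hLdef, this, Real.log_zero] at hL0
    exact lt_irrefl _ hL0
  have hlogL : 0 < Real.log L := Real.log_pos (by linarith)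
  -- facts on e
  rw [ME, mem_filter] at he
  obtain ⟨hediv, hecard⟩ := he
  have hedvd := Nat.dvd_of_mem_divisors hediv
  have hesq : Squarefree e := (PP_sqf _ _).squarefree_of_dvd hedvd
  have hepr : ∀ p ∈ e.primeFactors, wT A T < p := fun p hp =>
    PP_prime _ _ p (Nat.prime_of_mem_primeFactors hp)
      ((Nat.dvd_of_mem_primeFactors hp).trans hedvd)
  have hw5 : 5 ≤ wT A T := by unfold wT; omega
  have hml := main_lower (cz z (wT A T)) (cz_nonneg z hz0 _) (cz_le_one z hz0 hz1 _) T e hesq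
    (fun p hp => by have := hepr p hp; omega)
  have hwpos : (0 : ℝ) < (wT A T : ℝ) := by
    have : (5 : ℝ) ≤ (wT A T : ℝ) := by exact_mod_cast hw5
    linarith
  have hcard := card_noncop T (kT K0 T) (wT A T) hwpos e hecard
    (fun p hp => by exact_mod_cast hepr p hp)
  rw [← AE_eq z (wT A T) T e hesq.ne_zero] at hml
  have hG1 : ∑ l ∈ Icc 1 T, cz z (wT A T) l = GG z (wT A T) T 1 := by
    rw [GG_eq]; simp
  rw [hG1] at hml
  -- the character sums
  have hchar : ∑ f ∈ e.divisors.erase 1, |∑ l ∈ Icc 1 T, cz z (wT A T) l * (jacobiSym l f : ℝ)| ≤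
      2 ^ e.primeFactors.card * (1 / L ^ B * T) := by
    have h4 : ∀ f ∈ e.divisors.erase 1,
        |∑ l ∈ Icc 1 T, cz z (wT A T) l * (jacobiSym l f : ℝ)| ≤ 1 / L ^ B * T := by
      intro f hf
      rw [← GG_eq]
      by_contra hcon
      rw [not_le] at hcon
      apply hbad
      unfold Bad
      rw [mem_filter]
      refine ⟨?_, f, mem_of_mem_erase hf, ne_of_mem_erase hf, hcon⟩
      rw [ME, mem_filter]
      exact ⟨hediv, hecard⟩
    refine (sum_le_card_nsmul _ _ _ h4).trans ?_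
    rw [nsmul_eq_mul]
    have h5 : ((e.divisors.erase 1).card : ℝ) ≤ 2 ^ e.primeFactors.card := by
      have h6 := divisors_card e hesq
      have h7 : (e.divisors.erase 1).card ≤ 2 ^ e.primeFactors.card := by
        rw [← h6]; exact card_le_card (erase_subset _ _)
      exact_mod_cast h7
    exact mul_le_mul_of_nonneg_right h5 (by positivity)
  -- 2 ^ K
  have h2K : (2 : ℝ) ^ e.primeFactors.card ≤ 2 * L ^ K0 := by
    have h8 : (2 : ℝ) ^ e.primeFactors.card ≤ 2 ^ (kT K0 T) :=
      pow_le_pow_right₀ (by norm_num) hecard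
    refine h8.trans ?_
    unfold kT
    rw [pow_succ, mul_comm]
    refine mul_le_mul_of_nonneg_left ?_ (by norm_num)
    have h9 : (⌊(K0 : ℝ) * Real.log (Real.log T)⌋₊ : ℝ) ≤ K0 * Real.log L :=
      Nat.floor_le (by rw [← hLdef]; positivity)
    have h10 : ((2 : ℝ) ^ (⌊(K0 : ℝ) * Real.log (Real.log T)⌋₊)) ≤ (2 : ℝ) ^ ((K0 : ℝ) * Real.log L) := by
      rw [← Real.rpow_natCast]
      exact Real.rpow_le_rpow_of_exponent_le (by norm_num) h9
    refine h10.trans ?_
    have h11 : (2 : ℝ) ^ ((K0 : ℝ) * Real.log L) ≤ Real.exp 1 ^ ((K0 : ℝ) * Real.log L) := by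
      refine Real.rpow_le_rpow (by norm_num) ?_ (by positivity)
      have := Real.add_one_le_exp (1 : ℝ)
      linarith
    refine h11.trans (le_of_eq ?_)
    rw [← Real.exp_mul, one_mul, mul_comm, Real.exp_mul, Real.exp_log hL0, Real.rpow_natCast]
  have hK : (kT K0 T : ℝ) ≤ (K0 + 1) * L := by
    unfold kT
    push_cast
    have h9 : (⌊(K0 : ℝ) * Real.log (Real.log T)⌋₊ : ℝ) ≤ K0 * Real.log L :=
      Nat.floor_le (by rw [← hLdef]; positivity)
    have h12 : Real.log L ≤ L := (Real.log_le_sub_one_of_pos hL0).trans (by linarith)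
    have h13 : (K0 : ℝ) * Real.log L ≤ K0 * L := mul_le_mul_of_nonneg_left h12 (by positivity)
    linarith
  have hw : L ^ A ≤ (wT A T : ℝ) := by
    unfold wT
    push_cast
    have := Nat.lt_floor_add_one (L ^ A)
    linarith
  -- lower bound of GG
  have hGlow : (T : ℝ) / L ^ 2 ≤ GG z (wT A T) T 1 := by
    refine le_trans ?_ hlow
    rw [div_le_div_iff₀ (by positivity) (by positivity)]
    have h14 : Real.log L ^ C ≤ L := by
      have := h1
      rw [Real.rpow_one, one_mul, Real.norm_of_nonneg (by positivity),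
        Real.norm_of_nonneg hL0.le] at this
      exact this
    have h15 : L ^ (-1 : ℝ) ≤ L ^ (z - 1) := Real.rpow_le_rpow_of_exponent_le hL1 (by linarith)
    have h16 : L = L ^ (-1 : ℝ) * L ^ 2 := by
      rw [Real.rpow_neg_one]
      field_simp
    calc (T : ℝ) * Real.log L ^ C ≤ T * L := mul_le_mul_of_nonneg_left h14 hTpos.le
      _ = T * (L ^ (-1 : ℝ) * L ^ 2) := by rw [← h16]
      _ ≤ T * (L ^ (z - 1) * L ^ 2) := by
        refine mul_le_mul_of_nonneg_left ?_ hTpos.le
        exact mul_le_mul_of_nonneg_right h15 (by positivity)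
      _ = T * L ^ (z - 1) * L ^ 2 := by ring
  -- the errors
  have hE1 : 2 ^ e.primeFactors.card * (1 / L ^ B * (T : ℝ)) ≤ (T : ℝ) / L ^ 2 / 4 := by
    have h17 : L ^ (K0 + 3) ≤ L ^ B := pow_le_pow_right₀ hL1 hB
    calc 2 ^ e.primeFactors.card * (1 / L ^ B * (T : ℝ))
        ≤ (2 * L ^ K0) * (1 / L ^ (K0 + 3) * (T : ℝ)) := by
          refine mul_le_mul h2K ?_ (by positivity) (by positivity)
          refine mul_le_mul_of_nonneg_right ?_ hTpos.le
          exact one_div_le_one_div_of_le (by positivity) h17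
      _ = (2 / L) * ((T : ℝ) / L ^ 2) := by
          rw [pow_add]
          field_simp
      _ ≤ (1 / 4) * ((T : ℝ) / L ^ 2) := by
          refine mul_le_mul_of_nonneg_right ?_ (by positivity)
          rw [div_le_div_iff₀ hL0 (by norm_num)]
          linarith
      _ = (T : ℝ) / L ^ 2 / 4 := by ring
  have hE2 : 2 ^ e.primeFactors.card * ((kT K0 T : ℝ) * ((T : ℝ) / (wT A T : ℝ))) ≤
      (T : ℝ) / L ^ 2 / 4 := by
    have h18 : L ^ (K0 + 4) ≤ (wT A T : ℝ) := (pow_le_pow_right₀ hL1 hA).trans hw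
    calc 2 ^ e.primeFactors.card * ((kT K0 T : ℝ) * ((T : ℝ) / (wT A T : ℝ)))
        ≤ (2 * L ^ K0) * (((K0 + 1) * L) * ((T : ℝ) / L ^ (K0 + 4))) := by
          refine mul_le_mul h2K ?_ (by positivity) (by positivity)
          refine mul_le_mul hK ?_ (by positivity) (by positivity)
          exact div_le_div_of_nonneg_left hTpos.le (by positivity) h18
      _ = (2 * (K0 + 1) / L) * ((T : ℝ) / L ^ 2) := by
          rw [pow_add]
          field_simp
      _ ≤ (1 / 4) * ((T : ℝ) / L ^ 2) := by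
          refine mul_le_mul_of_nonneg_right ?_ (by positivity)
          rw [div_le_div_iff₀ hL0 (by norm_num)]
          linarith
      _ = (T : ℝ) / L ^ 2 / 4 := by ring
  -- conclusion
  have h2pos : (0 : ℝ) < 2 ^ e.primeFactors.card := by positivity
  have hfin : GG z (wT A T) T 1 / 2 ≤ 2 ^ e.primeFactors.card * AE z (wT A T) T e := by
    have h19 : 2 ^ e.primeFactors.card *
        (((Icc 1 T).filter (fun l : ℕ => ∃ p ∈ e.primeFactors, p ∣ l)).card : ℝ) ≤
        2 ^ e.primeFactors.card * ((kT K0 T : ℝ) * ((T : ℝ) / (wT A T : ℝ))) :=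
      mul_le_mul_of_nonneg_left hcard h2pos.le
    rw [mul_add] at hml
    linarith
  rw [div_le_iff₀ (by positivity)]
  linarith

end Pool.Agent.W779.IM
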